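import Pool.Agent.H71.O2.K1
import Pool.Agent.H25.NM.End

set_option autoImplicit false

/-!
# The end game of case O1 (helper32's proof, note 6889)

If `th(a, b)` fixes `b` for all `a`, `b` (K7), the loop has the inverse property, is a Moufang loop, and
the element `(y x)(x y)⁻¹` is in the nucleus for all `x`, `y`.
-/

namespace ALoop

open Equiv

variable {Q : Type*} {G : Subgroup (Perm Q)} {L : Q → Perm Q} {J : Perm Q} {e : Q}

/-- `a(x, y) = L_(xy)⁻¹ L_x L_y` -/
def al76 (L : Q → Perm Q) (x y : Q) : Perm Q := (L (L x y))⁻¹ * L x * L y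

namespace EG76

theorem flx (h : AL0 G L J e) (y z : Q) : L y (L z y) = L (L y z) y := by
  have h1 := congrArg (fun f : Perm Q => f z) (h.flex y)
  simp only [Perm.mul_apply] at h1
  rw [h.Rt_app, h.Rt_app] at h1
  exact h1

theorem aut (h : AL0 G L J e) {g : Perm Q} (hg : g ∈ G) (he : g e = e) (x y : Q) :
    g (L x y) = L (g x) (g y) := by
  have h1 := h.equi g hg he x
  rw [mul_inv_eq_iff_eq_mul] at h1
  have h2 := congrArg (fun p : Perm Q => p y) h1
  simpa using h2

theorem Le1 (h : AL0 G L J e) : L e = 1 := by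
  ext x
  have h2 := h.aaip (J x) e
  rw [h.Le, h.JJ, h.Je] at h2
  exact h2.symm

section K

variable (h : AL0 G L J e) (hK : ∀ a b, Th L J a b b = b)

include h hK

theorem fa (a b : Q) : Th L J a b a = a := by
  have h1 := hK (J b) (J a)
  rw [h.Th_inv, Perm.inv_eq_iff_eq] at h1
  have h2 := h.fixJ (h.Th_mem a b) (h.Th_e a b) h1.symm
  rwa [h.JJ] at h2

theorem c1 (a b : Q) : Th L J a b * L a = L a * Th L J a b :=
  h.comL (h.Th_mem a b) (h.Th_e a b) (fa h hK a b)

theorem c2 (a b : Q) : Th L J a b * L b = L b * Th L J a b :=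
  h.comL (h.Th_mem a b) (h.Th_e a b) (hK a b)

theorem c3 (a b : Q) : Th L J a b * Rt L J a = Rt L J a * Th L J a b :=
  h.comR (h.Th_mem a b) (h.Th_e a b) (fa h hK a b)

theorem c4 (a b : Q) : Th L J a b * Rt L J b = Rt L J b * Th L J a b :=
  h.comR (h.Th_mem a b) (h.Th_e a b) (hK a b)

theorem cT (a b : Q) : Th L J a b * Tx L J b = Tx L J b * Th L J a b := by
  have h1 : Commute (Th L J a b) (L b) := c2 h hK a b
  have h2 : Commute (Th L J a b) (Rt L J b) := c4 h hK a b
  exact h1.mul_right h2.inv_right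

theorem inv1 (a b : Q) : Th L J a (J b) = (Th L J a b)⁻¹ := by
  have h1 := h.K1 a b
  rw [cT h hK a b] at h1
  have h2 := mul_left_cancel h1
  rw [← h2, inv_inv]

theorem inv2 (a b : Q) : Th L J b a = (Th L J a b)⁻¹ := by
  have h1 := h.K2 a b
  rw [cT h hK a b] at h1
  have h2 := mul_left_cancel h1
  rw [inv1 h hK] at h2
  rw [← h2, inv_inv]

theorem inv3 (a b : Q) : Th L J (J a) b = (Th L J a b)⁻¹ := by
  rw [inv2 h hK b (J a), inv1 h hK, inv_inv, inv2 h hK a b]

/-- the inverse property -/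
theorem ipR (b : Q) : Rt L J (J b) = (Rt L J b)⁻¹ := by
  have key : ∀ a, (Rt L J b * Rt L J (J b)) * L a = L a * (Rt L J b * Rt L J (J b)) := by
    intro a
    have e1 : (L a)⁻¹ * Rt L J b * L a = Rt L J b * (Th L J a b)⁻¹ := by
      unfold Th; group
    have e2 : (L a)⁻¹ * Rt L J (J b) * L a = Rt L J (J b) * Th L J a b := by
      have e3 : (L a)⁻¹ * Rt L J (J b) * L a = Rt L J (J b) * (Th L J a (J b))⁻¹ := by
        unfold Th; group
      rw [e3, inv1 h hK, inv_inv]
    have e4 : Th L J a b * Rt L J (J b) = Rt L J (J b) * Th L J a b :=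
      h.comR (h.Th_mem a b) (h.Th_e a b) (h.fixJ (h.Th_mem a b) (h.Th_e a b) (hK a b))
    have e5 : (L a)⁻¹ * (Rt L J b * Rt L J (J b)) * L a = Rt L J b * Rt L J (J b) := by
      calc (L a)⁻¹ * (Rt L J b * Rt L J (J b)) * L a =
          ((L a)⁻¹ * Rt L J b * L a) * ((L a)⁻¹ * Rt L J (J b) * L a) := by group
        _ = Rt L J b * (Th L J a b)⁻¹ * (Rt L J (J b) * Th L J a b) := by rw [e1, e2]
        _ = Rt L J b * (Th L J a b)⁻¹ * (Th L J a b * Rt L J (J b)) := by rw [e4]
        _ = _ := by group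
    calc (Rt L J b * Rt L J (J b)) * L a =
        L a * ((L a)⁻¹ * (Rt L J b * Rt L J (J b)) * L a) := by group
      _ = _ := by rw [e5]
  have h1 : Rt L J b * Rt L J (J b) = 1 := by
    ext a
    have h2 := congrArg (fun p : Perm Q => p e) (key a)
    simp only [Perm.mul_apply] at h2
    rw [h.Le, h.Rt_e, h.Rt_app b (J b), h.JL, h.Le] at h2
    rw [Perm.mul_apply, h2]; rfl
  exact (inv_eq_of_mul_eq_one_right h1).symm

theorem ipL (b : Q) : L (J b) = (L b)⁻¹ := by
  have h1 := h.JRJ b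
  have h2 := h.JLJ b
  rw [ipR h hK] at h2
  rw [← h1]
  have h3 : Rt L J b = (J * L b * J)⁻¹ := by rw [h2, inv_inv]
  rw [h3, mul_inv_rev, mul_inv_rev, h.Jinv]
  calc J * (J * ((L b)⁻¹ * J)) * J = (J * J) * (L b)⁻¹ * (J * J) := by group
    _ = _ := by rw [h.JJ1]; group

omit hK in
theorem al_mem (x y : Q) : al76 L x y ∈ G :=
  G.mul_mem (G.mul_mem (G.inv_mem (h.memL _)) (h.memL _)) (h.memL _)

omit hK in
theorem al_e (x y : Q) : al76 L x y e = e := by
  unfold al76
  rw [Perm.mul_apply, Perm.mul_apply, h.Le, Perm.inv_eq_iff_eq, h.Le]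

omit hK in
theorem al_x (x y : Q) : al76 L x y x = x := by
  unfold al76
  rw [Perm.mul_apply, Perm.mul_apply, flx h, inv_apply']

omit h hK in
theorem al_L (x y : Q) : L x * L y = L (L x y) * al76 L x y := by
  unfold al76; group

theorem al_conj (x y : Q) :
    al76 L (J y) (J x) = L (L x y) * (al76 L x y)⁻¹ * (L (L x y))⁻¹ := by
  have h1 : al76 L (J y) (J x) = (L (L (J y) (J x)))⁻¹ * L (J y) * L (J x) := rfl
  rw [h1, ← h.aaip, ipL h hK, ipL h hK, ipL h hK]
  unfold al76
  group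

theorem al_xy (x y : Q) : al76 L x y (L x y) = L x y := by
  have h1 := al_e h (J y) (J x)
  rw [al_conj h hK] at h1
  simp only [Perm.mul_apply] at h1
  rw [h.L_inv_e] at h1
  have h2 : (al76 L x y)⁻¹ (J (L x y)) = J (L x y) := by
    apply (L (L x y)).injective
    rw [h1, h.LJ]
  rw [Perm.inv_eq_iff_eq] at h2
  have h3 := h.fixJ (al_mem h x y) (al_e h x y) h2.symm
  rwa [h.JJ] at h3

theorem al_y (x y : Q) : al76 L x y y = y := by
  have h1 := al_xy h hK x y
  rw [aut h (al_mem h x y) (al_e h x y), al_x h] at h1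
  exact (L x).injective h1

theorem al_inv (x y : Q) : al76 L (J y) (J x) = (al76 L x y)⁻¹ := by
  rw [al_conj h hK]
  have h1 : Commute (al76 L x y) (L (L x y)) :=
    h.comL (al_mem h x y) (al_e h x y) (al_xy h hK x y)
  have h2 := h1.inv_left.eq
  rw [← h2]; group

theorem al_R (x y : Q) : Rt L J (L x y) = al76 L x y * Rt L J y * Rt L J x := by
  have hJ1 := h.JJ1
  have r : ∀ z, Rt L J z = J * (L z)⁻¹ * J := by
    intro z
    have : Rt L J z = J * L (J z) * J := rfl
    rw [this, ipL h hK]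
  have h2 := h.comJ _ (al_mem h x y) (al_e h x y)
  rw [r, r, r]
  calc J * (L (L x y))⁻¹ * J = J * (al76 L x y * (L y)⁻¹ * (L x)⁻¹) * J := by
        unfold al76; group
    _ = (J * al76 L x y) * (L y)⁻¹ * 1 * (L x)⁻¹ * J := by group
    _ = (al76 L x y * J) * (L y)⁻¹ * (J * J) * (L x)⁻¹ * J := by rw [← h2, hJ1]
    _ = _ := by group

/-- `th(x, z) w = a(y, z) w`, `w = x y` -/
theorem s2 (y z w : Q) : Th L J ((Rt L J y)⁻¹ w) z w = al76 L y z w := by
  obtain ⟨x, hx⟩ : ∃ x, x = (Rt L J y)⁻¹ w := ⟨_, rfl⟩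
  have hw : L x y = w := by
    rw [← h.Rt_app y x, hx, apply_inv']
  rw [← hx]
  apply (Rt L J z).injective
  have e1 : L x (L y z) = Rt L J z (Th L J x z w) := by
    have h1 : L x * Rt L J z = Rt L J z * (Th L J x z * L x) := by
      rw [c1 h hK]; unfold Th; group
    have h2 := congrArg (fun p : Perm Q => p y) h1
    simp only [Perm.mul_apply] at h2
    rw [h.Rt_app z y, hw] at h2
    exact h2
  have e2 : L x (L y z) = Rt L J z (al76 L y z w) := by
    have h1 := al_R h hK y z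
    have h3 : al76 L y z * Rt L J z = Rt L J z * al76 L y z :=
      h.comR (al_mem h y z) (al_e h y z) (al_y h hK y z)
    rw [h3] at h1
    have h2 := congrArg (fun p : Perm Q => p x) h1
    simp only [Perm.mul_apply] at h2
    rw [h.Rt_app, h.Rt_app y x, hw] at h2
    exact h2
  rw [← e1, e2]

theorem a1 (y z w : Q) : (al76 L y z)⁻¹ w = Th L J y (L w z) w := by
  rw [← al_inv h hK, ← s2 h hK, ipR h hK, inv_inv, h.Rt_app, inv1 h hK, ← inv2 h hK]

theorem a2 (y z w : Q) : (al76 L y z)⁻¹ w = Th L J y ((L w)⁻¹ z) w := by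
  obtain ⟨x, hx⟩ : ∃ x, x = (L z)⁻¹ w := ⟨_, rfl⟩
  have hw : L z x = w := by rw [hx, apply_inv']
  have e1 : L (L y z) x = L y ((al76 L y z)⁻¹ w) := by
    have h3 : Commute (al76 L y z) (L z) :=
      h.comL (al_mem h y z) (al_e h y z) (al_y h hK y z)
    have h4 := h3.inv_left.eq
    have h1 : L (L y z) = L y * ((al76 L y z)⁻¹ * L z) := by
      rw [h4]; unfold al76; group
    have h2 := congrArg (fun p : Perm Q => p x) h1
    simp only [Perm.mul_apply] at h2
    rw [hw] at h2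
    exact h2
  have e2 : L (L y z) x = L y ((Th L J y x)⁻¹ w) := by
    have h3 : Commute (Th L J y x) (Rt L J x) := c4 h hK y x
    have h4 := h3.inv_left.eq
    have h1 : Rt L J x * L y = L y * ((Th L J y x)⁻¹ * Rt L J x) := by
      rw [h4]; unfold Th; group
    have h2 := congrArg (fun p : Perm Q => p z) h1
    simp only [Perm.mul_apply] at h2
    rw [h.Rt_app, h.Rt_app, hw] at h2
    exact h2
  have e3 : (al76 L y z)⁻¹ w = (Th L J y x)⁻¹ w := by
    apply (L y).injective
    rw [← e1, e2]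
  have e4 : J x = (L w)⁻¹ z := by
    rw [hx, ← ipL h hK, h.aaip, h.JJ, ipL h hK]
  rw [e3, ← inv1 h hK, e4]

theorem per2 (y z w : Q) : Th L J y (L w (L w z)) w = Th L J y z w := by
  rw [← a1 h hK, a2 h hK, inv_apply']

theorem pw (w : Q) (k : ℕ) : L (((L w) ^ k) e) = (L w) ^ k := by
  induction k with
  | zero => simp [Le1 h]
  | succ k ih =>
    obtain ⟨v, hv⟩ : ∃ v, v = ((L w) ^ k) e := ⟨_, rfl⟩
    have hal : al76 L v w = 1 := by
      ext u
      have h1 := s2 h hK v w u
      obtain ⟨x, hx⟩ : ∃ x, x = (Rt L J v)⁻¹ u := ⟨_, rfl⟩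
      have hu : L x v = u := by rw [← h.Rt_app v x, hx, apply_inv']
      rw [← hx] at h1
      rw [← h1, Perm.one_apply]
      have h2 : Th L J x w v = v := by
        have h3 : Commute (Th L J x w) (L w) := c2 h hK x w
        have h4 := congrArg (fun p : Perm Q => p e) (h3.pow_right k).eq
        simp only [Perm.mul_apply] at h4
        rw [h.Th_e, ← hv] at h4
        exact h4
      rw [← hu, aut h (h.Th_mem x w) (h.Th_e x w), fa h hK, h2]
    have h1 := al_L (L := L) v w
    rw [hal, mul_one] at h1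
    have h2 : ((L w) ^ (k + 1)) e = L v w := by
      rw [pow_succ, Perm.mul_apply, h.Le, hv, ih]
    rw [h2, ← h1, hv, ih, pow_succ]

theorem odd_L [Finite Q] (hfix : ∀ x, J x = x → x = e) (w : Q) :
    ∃ m : ℕ, (L w) ^ (2 * m + 1) = 1 := by
  have hpos : 0 < orderOf (L w) := orderOf_pos (L w)
  rcases Nat.even_or_odd (orderOf (L w)) with h1 | h1
  · exfalso
    obtain ⟨m, hm⟩ := h1
    have hmm : (L w) ^ m * (L w) ^ m = 1 := by
      rw [← pow_add, ← hm, pow_orderOf_eq_one]
    have h2 := pw h hK w m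
    have h3 : J (((L w) ^ m) e) = ((L w) ^ m) e := by
      rw [← h.L_inv_e, h2, inv_eq_of_mul_eq_one_left hmm]
    have h4 := hfix _ h3
    rw [h4, Le1 h] at h2
    have h5 := orderOf_dvd_of_pow_eq_one h2.symm
    have h6 := Nat.le_of_dvd (by omega) h5
    omega
  · obtain ⟨m, hm⟩ := h1
    exact ⟨m, by rw [← hm, pow_orderOf_eq_one]⟩

theorem e1 [Finite Q] (hfix : ∀ x, J x = x → x = e) (y z w : Q) :
    Th L J y (L w z) w = Th L J y z w := by
  obtain ⟨m, hm⟩ := odd_L h hK hfix w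
  have h1 : ∀ k : ℕ, Th L J y (((L w) ^ (2 * k + 1)) z) w = Th L J y (L w z) w := by
    intro k
    induction k with
    | zero => simp
    | succ k ih =>
      have h2 : ((L w) ^ (2 * (k + 1) + 1)) z = L w (L w (((L w) ^ (2 * k + 1)) z)) := by
        rw [show 2 * (k + 1) + 1 = (2 * k + 1) + 1 + 1 by ring, pow_succ', pow_succ']
        rfl
      rw [h2, per2 h hK, ih]
  have h2 := h1 m
  rw [hm] at h2
  exact h2.symm

theorem al_eq [Finite Q] (hfix : ∀ x, J x = x → x = e) (y z : Q) :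
    al76 L y z = Th L J z y := by
  ext w
  rw [← s2 h hK y z w, ← ipR h hK, h.Rt_app, inv2 h hK z (L w (J y)), ← inv3 h hK,
    e1 h hK hfix, h.Th_inv, ← inv2 h hK]

/-- the Moufang identity -/
theorem mouf [Finite Q] (hfix : ∀ x, J x = x → x = e) (x p : Q) :
    L (L x p) * Rt L J x = L x * Rt L J x * L p := by
  have h1 := al_L (L := L) x p
  rw [al_eq h hK hfix] at h1
  have h2 : Commute (Th L J p x) (Rt L J x) := c4 h hK p x
  have h3 := h2.inv_left.eq
  calc L (L x p) * Rt L J x = L (L x p) * Th L J p x * ((Th L J p x)⁻¹ * Rt L J x) := by group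
    _ = L x * L p * ((Th L J p x)⁻¹ * Rt L J x) := by rw [← h1]
    _ = L x * L p * (Rt L J x * (Th L J p x)⁻¹) := by rw [h3]
    _ = _ := by unfold Th; group

theorem exists_nuc [Finite Q] (hfix : ∀ x, J x = x → x = e) {x y : Q} (hxy : L x y ≠ L y x) :
    ∃ c, c ≠ e ∧ ∀ p, Rt L J c * L p = L p * Rt L J c := by
  obtain ⟨V, hV⟩ : ∃ V, V = (Rt L J (L x y))⁻¹ * Rt L J x * Rt L J y := ⟨_, rfl⟩
  obtain ⟨P, hP⟩ : ∃ P, P = (L (L x y) * Rt L J (L x y))⁻¹ * (L x * Rt L J x) * (L y * Rt L J y) :=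
    ⟨_, rfl⟩
  have hW : ∀ p, P * L p = L (al76 L x y p) * V := by
    intro p
    have h1 := mouf h hK hfix y p
    have h2 := mouf h hK hfix x (L y p)
    have h3 := mouf h hK hfix (L x y) (al76 L x y p)
    have h4 : L (L x y) (al76 L x y p) = L x (L y p) := by
      have := congrArg (fun f : Perm Q => f p) (al_L (L := L) x y)
      simpa using this.symm
    rw [h4] at h3
    rw [hP, hV]
    calc (L (L x y) * Rt L J (L x y))⁻¹ * (L x * Rt L J x) * (L y * Rt L J y) * L p =
        (L (L x y) * Rt L J (L x y))⁻¹ * (L x * Rt L J x) * (L y * Rt L J y * L p) := by group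
      _ = (L (L x y) * Rt L J (L x y))⁻¹ * (L x * Rt L J x * L (L y p)) * Rt L J y := by
          rw [← h1]; group
      _ = (L (L x y) * Rt L J (L x y))⁻¹ * (L (L x (L y p)) * Rt L J (L x y)) *
          (Rt L J (L x y))⁻¹ * Rt L J x * Rt L J y := by rw [← h2]; group
      _ = _ := by rw [h3]; group
  have hPV : P = V := by
    have h1 := hW e
    rw [al_e h, Le1 h, mul_one, one_mul] at h1
    exact h1
  obtain ⟨g, hg⟩ : ∃ g, g = (al76 L x y)⁻¹ * V := ⟨_, rfl⟩
  have hgL : ∀ p, g * L p = L p * g := by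
    intro p
    have h1 := hW p
    rw [hPV, ← h.equi _ (al_mem h x y) (al_e h x y) p] at h1
    rw [hg]
    calc (al76 L x y)⁻¹ * V * L p = (al76 L x y)⁻¹ * (V * L p) := by group
      _ = _ := by rw [h1]; group
  have hgR : g = Rt L J (g e) := by
    ext v
    have h1 := congrArg (fun f : Perm Q => f e) (hgL v)
    simp only [Perm.mul_apply] at h1
    rw [h.Le] at h1
    rw [h1, h.Rt_app]
  refine ⟨g e, ?_, ?_⟩
  · intro h1
    rw [hg, hV] at h1
    simp only [Perm.mul_apply] at h1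
    rw [h.Rt_e, h.Rt_app, Perm.inv_eq_iff_eq, al_e h, Perm.inv_eq_iff_eq, h.Rt_e] at h1
    exact hxy h1.symm
  · intro p
    rw [← hgR]
    exact hgL p

end K

end EG76

/-- END GAME: after K7 a noncommutative simple automorphic loop without involutions is associative -/
theorem AL.end_game76 [Finite Q] (h : AL G L J e) (hK : ∀ a b, Th L J a b b = b)
    (hfix : ∀ x, J x = x → x = e) (hnc : ∃ q, J * L (J q) * J ≠ L q) : Assoc L := by
  have h0 := h.al0
  obtain ⟨x, y, hxy⟩ : ∃ x y, L x y ≠ L y x := by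
    by_contra hne
    push Not at hne
    obtain ⟨q, hq⟩ := hnc
    apply hq
    ext z
    have h1 := h0.Rt_app q z
    have h2 : J * L (J q) * J = Rt L J q := rfl
    rw [h2, h1, hne]
  obtain ⟨c, hce, hc⟩ := EG76.exists_nuc h0 hK hfix hxy
  refine h.assoc_of_mNuc (s := c) ?_ hce
  intro v
  have h1 : Th L J v c = 1 := by
    unfold Th
    have h2 := hc v
    calc (L v)⁻¹ * (Rt L J c)⁻¹ * L v * Rt L J c = (L v)⁻¹ * (Rt L J c)⁻¹ * (L v * Rt L J c) := by
          group
      _ = _ := by rw [← h2]; group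
  have h2 := EG76.al_L (L := L) v c
  rw [EG76.al_eq h0 hK hfix, EG76.inv2 h0 hK v c, h1, inv_one, mul_one] at h2
  exact h2.symm

end ALoop
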